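import Pool.Agent.R280.C0Emb

/-!
# The ideal generated by the antichains of the binary tree (MP_de5a3f_an, Q1: yes)

Let `F` consist of the finite antichains and of the finite chains `D` with `|D| ≤ |s| + 1` for all
`s ∈ D`. If `H` is a union of `m` antichains, then the norm of `x ∈ c_00(H)` is at least `‖x‖_1 / m`,
and `X_{F↾H}` does not contain `c_0`. Otherwise `H` contains chains `D_k ∈ F` with `n_k` elements, where
`n_k` grows fast and the levels of `D_{k+1}` are large in comparison with those of `D_k`. The vectors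
`(1/n_k) 1_{D_k}` are equivalent to the unit vectors of `c_0`.
-/

set_option autoImplicit false

open Set Topology Filter Pool.Agent.R280.C0Emb
open scoped ZeroAtInfty

namespace Pool.Agent.Results.MP_de5a3f_an.FamilyOnTree

section space

variable {Ω : Type}

/-- `‖x‖_F = sup {∑_{k ∈ A} |x k| : A ∈ F}` for a family `F` of finite sets and a finitely supported
function `x`. -/
noncomputable def normF (F : Set (Finset Ω)) (x : Ω →₀ ℝ) : ℝ :=
  sSup {r : ℝ | ∃ A ∈ F, r = ∑ k ∈ A, |x k|}

lemma normF_nonneg (F : Set (Finset Ω)) (x : Ω →₀ ℝ) : 0 ≤ normF F x := by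
  refine Real.sSup_nonneg ?_
  rintro _ ⟨A, -, rfl⟩
  exact Finset.sum_nonneg fun _ _ => abs_nonneg _

lemma sum_le_sum_support (x : Ω →₀ ℝ) (A : Finset Ω) :
    ∑ k ∈ A, |x k| ≤ ∑ k ∈ x.support, |x k| := by
  classical
  calc ∑ k ∈ A, |x k| ≤ ∑ k ∈ x.support ∪ A, |x k| :=
        Finset.sum_le_sum_of_subset_of_nonneg Finset.subset_union_right fun _ _ _ => abs_nonneg _
    _ = ∑ k ∈ x.support, |x k| := by
        refine (Finset.sum_subset Finset.subset_union_left fun k _ hk => ?_).symm
        rw [Finsupp.notMem_support_iff.1 hk, abs_zero]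

lemma bddAbove (F : Set (Finset Ω)) (x : Ω →₀ ℝ) :
    BddAbove {r : ℝ | ∃ A ∈ F, r = ∑ k ∈ A, |x k|} := by
  refine ⟨∑ k ∈ x.support, |x k|, ?_⟩
  rintro _ ⟨A, -, rfl⟩
  exact sum_le_sum_support x A

lemma sum_le_normF {F : Set (Finset Ω)} {A : Finset Ω} (hA : A ∈ F) (x : Ω →₀ ℝ) :
    ∑ k ∈ A, |x k| ≤ normF F x :=
  le_csSup (bddAbove F x) ⟨A, hA, rfl⟩

lemma normF_le {F : Set (Finset Ω)} {x : Ω →₀ ℝ} {t : ℝ} (ht : 0 ≤ t)
    (h : ∀ A ∈ F, ∑ k ∈ A, |x k| ≤ t) : normF F x ≤ t := by
  refine Real.sSup_le ?_ ht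
  rintro _ ⟨A, hA, rfl⟩
  exact h A hA

lemma normF_add (F : Set (Finset Ω)) (x y : Ω →₀ ℝ) : normF F (x + y) ≤ normF F x + normF F y := by
  refine normF_le (add_nonneg (normF_nonneg _ _) (normF_nonneg _ _)) fun A hA => ?_
  calc ∑ k ∈ A, |(x + y) k| ≤ ∑ k ∈ A, (|x k| + |y k|) :=
        Finset.sum_le_sum fun k _ => abs_add_le _ _
    _ = ∑ k ∈ A, |x k| + ∑ k ∈ A, |y k| := Finset.sum_add_distrib
    _ ≤ _ := add_le_add (sum_le_normF hA x) (sum_le_normF hA y)

lemma normF_smul_le (F : Set (Finset Ω)) (c : ℝ) (x : Ω →₀ ℝ) :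
    normF F (c • x) ≤ |c| * normF F x := by
  refine normF_le (mul_nonneg (abs_nonneg _) (normF_nonneg _ _)) fun A hA => ?_
  calc ∑ k ∈ A, |(c • x) k| = |c| * ∑ k ∈ A, |x k| := by
        rw [Finset.mul_sum]
        refine Finset.sum_congr rfl fun k _ => ?_
        rw [Finsupp.smul_apply, smul_eq_mul, abs_mul]
    _ ≤ _ := mul_le_mul_of_nonneg_left (sum_le_normF hA x) (abs_nonneg _)

lemma normF_zero (F : Set (Finset Ω)) : normF F 0 = 0 := by
  refine le_antisymm (normF_le le_rfl fun A _ => ?_) (normF_nonneg _ _)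
  simp

lemma normF_neg (F : Set (Finset Ω)) (x : Ω →₀ ℝ) : normF F (-x) = normF F x := by
  unfold normF
  congr 1
  ext r
  refine exists_congr fun A => and_congr_right fun _ => ?_
  have : ∀ k, (-x) k = -x k := fun k => rfl
  simp only [this, abs_neg]

/-- `c_00(Ω)` with the norm `‖·‖_F` -/
def C00 (_ : Set (Finset Ω)) : Type := Ω →₀ ℝ

variable (F : Set (Finset Ω))

noncomputable instance : AddCommGroup (C00 F) := inferInstanceAs (AddCommGroup (Ω →₀ ℝ))

noncomputable instance : Module ℝ (C00 F) := inferInstanceAs (Module ℝ (Ω →₀ ℝ))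

/-- the norm of `C00 F` as a seminorm -/
noncomputable def groupSeminorm : AddGroupSeminorm (C00 F) where
  toFun := normF F
  map_zero' := normF_zero F
  add_le' := normF_add F
  neg' := normF_neg F

noncomputable instance : SeminormedAddCommGroup (C00 F) :=
  (groupSeminorm F).toSeminormedAddCommGroup

lemma norm_def (x : C00 F) : ‖x‖ = normF F x := rfl

noncomputable instance : NormedSpace ℝ (C00 F) where
  norm_smul_le := by
    intro c x
    rw [Real.norm_eq_abs]
    exact normF_smul_le F c x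

/-- `X_F`, the completion of `c_00(Ω)` under the norm `‖·‖_F` -/
abbrev XF : Type := UniformSpace.Completion (C00 F)

/-- The family `F ↾ H = {A ∩ H : A ∈ F}`, as a family of finite subsets of the type `H`. -/
def restr (H : Set Ω) : Set (Finset H) := {B | ∃ A ∈ F, ∀ k : H, k ∈ B ↔ (k : Ω) ∈ A}

end space

/-- The tree order of the finite binary sequences: `t` extends `s`. -/
def Ext (s t : List Bool) : Prop := ∃ u, t = s ++ u

/-- The nodes in `A` are pairwise incomparable. -/
def IsAntichain (A : Set (List Bool)) : Prop := ∀ s ∈ A, ∀ t ∈ A, Ext s t → s = t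

/-- The nodes in `A` are pairwise comparable. -/
def IsChain (A : Set (List Bool)) : Prop := ∀ s ∈ A, ∀ t ∈ A, Ext s t ∨ Ext t s

/-- `H` is a union of finitely many antichains. -/
def IsFinUnionAntichains (H : Set (List Bool)) : Prop :=
  ∃ (m : ℕ) (A : Fin m → Set (List Bool)), (∀ i, IsAntichain (A i)) ∧ H = ⋃ i, A i

/-- the family -/
def Fam : Set (Finset (List Bool)) :=
  {A | IsAntichain (A : Set (List Bool)) ∨
    (IsChain (A : Set (List Bool)) ∧ ∀ s ∈ A, A.card ≤ s.length + 1)}

lemma ext_refl (s : List Bool) : Ext s s := ⟨[], (List.append_nil s).symm⟩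

lemma ext_trans {s t r : List Bool} (h1 : Ext s t) (h2 : Ext t r) : Ext s r := by
  obtain ⟨u, rfl⟩ := h1
  obtain ⟨v, rfl⟩ := h2
  exact ⟨u ++ v, List.append_assoc _ _ _⟩

lemma length_le {s t : List Bool} (h : Ext s t) : s.length ≤ t.length := by
  obtain ⟨u, rfl⟩ := h
  rw [List.length_append]
  omega

lemma ext_eq {s t : List Bool} (h : Ext s t) (hl : t.length ≤ s.length) : s = t := by
  obtain ⟨u, rfl⟩ := h
  rw [List.length_append] at hl
  have : u = [] := List.eq_nil_of_length_eq_zero (by omega)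
  rw [this, List.append_nil]

/-- predecessors of a node are comparable -/
lemma ext_comparable {s t r : List Bool} (h1 : Ext s r) (h2 : Ext t r) : Ext s t ∨ Ext t s := by
  obtain ⟨u, hu⟩ := h1
  obtain ⟨v, hv⟩ := h2
  rw [hu] at hv
  rcases List.append_eq_append_iff.1 hv with ⟨a, h, -⟩ | ⟨c, h, -⟩
  · exact Or.inl ⟨a, h⟩
  · exact Or.inr ⟨c, h⟩

lemma singleton_mem (s : List Bool) : {s} ∈ Fam := by
  left
  intro a ha b hb _
  rw [Finset.coe_singleton, mem_singleton_iff] at ha hb
  rw [ha, hb]

/-- in the union of antichains the norm is equivalent to the `ℓ_1` norm -/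
lemma l1_le {H : Set (List Bool)} {m : ℕ} {A : Fin m → Set (List Bool)}
    (hA : ∀ i, IsAntichain (A i)) (hH : H = ⋃ i, A i) (x : H →₀ ℝ) :
    ∑ k ∈ x.support, |x k| ≤ m * normF (restr Fam H) x := by
  classical
  have h1 : ∀ k : H, ∃ i, (k : List Bool) ∈ A i := by
    intro k
    exact mem_iUnion.1 (hH.subset k.2)
  choose i hi using h1
  have h2 : ∑ k ∈ x.support, |x k| = ∑ j : Fin m, ∑ k ∈ x.support.filter (fun k => i k = j), |x k| := by
    rw [Finset.sum_fiberwise]
  rw [h2]
  have h3 : ∀ j : Fin m, ∑ k ∈ x.support.filter (fun k => i k = j), |x k| ≤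
      normF (restr Fam H) x := by
    intro j
    refine sum_le_normF ?_ x
    refine ⟨(x.support.filter (fun k => i k = j)).map (Function.Embedding.subtype _), Or.inl ?_, ?_⟩
    · intro s hs t ht hst
      simp only [Finset.coe_map, mem_image, Finset.mem_coe, Finset.mem_filter] at hs ht
      obtain ⟨a, ⟨-, ha⟩, rfl⟩ := hs
      obtain ⟨b, ⟨-, hb⟩, rfl⟩ := ht
      refine hA j _ ?_ _ ?_ hst
      · rw [← ha]; exact hi a
      · rw [← hb]; exact hi b
    · intro k
      rw [Finset.mem_map]
      constructor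
      · intro hk
        exact ⟨k, hk, rfl⟩
      · rintro ⟨k', hk', h⟩
        rwa [← Subtype.ext h]
  calc _ ≤ ∑ _j : Fin m, normF (restr Fam H) x := Finset.sum_le_sum fun j _ => h3 j
    _ = _ := by rw [Finset.sum_const, Finset.card_univ, Fintype.card_fin, nsmul_eq_mul]

/-- the `ℓ_1` norm of a finitely supported function -/
noncomputable def L {Ω : Type} (x : Ω →₀ ℝ) : ℝ := ∑ k ∈ x.support, |x k|

lemma L_eq {Ω : Type} {x : Ω →₀ ℝ} {U : Finset Ω} (hU : x.support ⊆ U) :
    L x = ∑ k ∈ U, |x k| := by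
  unfold L
  refine Finset.sum_subset hU fun k _ hk => ?_
  rw [Finsupp.notMem_support_iff.1 hk, abs_zero]

lemma L_add {Ω : Type} (w z : Ω →₀ ℝ) :
    L w + L z - 2 * ∑ k ∈ w.support, |z k| ≤ L (w + z) := by
  classical
  set U := w.support ∪ z.support with hU
  have h1 : (w + z).support ⊆ U := Finsupp.support_add
  rw [L_eq h1, L_eq (Finset.subset_union_left : w.support ⊆ U),
    L_eq (Finset.subset_union_right : z.support ⊆ U)]
  have h2 : ∑ k ∈ w.support, |z k| = ∑ k ∈ U, if k ∈ w.support then |z k| else 0 := by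
    rw [Finset.sum_ite_mem, Finset.inter_eq_right.2 Finset.subset_union_left]
  rw [h2, Finset.mul_sum, ← Finset.sum_add_distrib, ← Finset.sum_sub_distrib]
  refine Finset.sum_le_sum fun k _ => ?_
  rw [Finsupp.add_apply]
  by_cases hk : k ∈ w.support
  · rw [if_pos hk]
    have h3 := abs_sub_abs_le_abs_sub (w k) (-z k)
    rw [abs_neg, sub_neg_eq_add] at h3
    linarith
  · rw [if_neg hk, Finsupp.notMem_support_iff.1 hk, abs_zero, zero_add, zero_add, mul_zero,
      sub_zero]

lemma abs_le_two_mul (f : ℕ → ℝ) (M : ℝ) (h : ∀ A : Finset ℕ, |∑ k ∈ A, f k| ≤ M)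
    (A : Finset ℕ) : ∑ k ∈ A, |f k| ≤ 2 * M := by
  classical
  rw [← Finset.sum_filter_add_sum_filter_not A (fun k => 0 ≤ f k)]
  have h1 : ∑ k ∈ A.filter (fun k => 0 ≤ f k), |f k| = ∑ k ∈ A.filter (fun k => 0 ≤ f k), f k :=
    Finset.sum_congr rfl fun k hk => abs_of_nonneg (Finset.mem_filter.1 hk).2
  have h2 : ∑ k ∈ A.filter (fun k => ¬ 0 ≤ f k), |f k| =
      -∑ k ∈ A.filter (fun k => ¬ 0 ≤ f k), f k := by
    rw [← Finset.sum_neg_distrib]
    exact Finset.sum_congr rfl fun k hk =>
      abs_of_neg (not_le.1 (Finset.mem_filter.1 hk).2)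
  rw [h1, h2]
  have h3 := (abs_le.1 (h (A.filter (fun k => 0 ≤ f k)))).2
  have h4 := (abs_le.1 (h (A.filter (fun k => ¬ 0 ≤ f k)))).1
  linarith

lemma coe_sum {Ω : Type} (F : Set (Finset Ω)) (A : Finset ℕ) (z : ℕ → C00 F) :
    ((∑ k ∈ A, z k : C00 F) : XF F) = ∑ k ∈ A, (z k : XF F) :=
  map_sum (UniformSpace.Completion.toComplL (𝕜 := ℝ) (E := C00 F)) z A

lemma abs_le_normF {H : Set (List Bool)} (x : H →₀ ℝ) (k : H) :
    |x k| ≤ normF (restr Fam H) x := by
  have h1 : ({k} : Finset H) ∈ restr Fam H := by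
    refine ⟨{(k : List Bool)}, singleton_mem _, fun k' => ?_⟩
    rw [Finset.mem_singleton, Finset.mem_singleton, Subtype.ext_iff]
  have := sum_le_normF h1 x
  rwa [Finset.sum_singleton] at this

/-- the underlying function -/
def toF {Ω : Type} {F : Set (Finset Ω)} (x : C00 F) : Ω →₀ ℝ := x

lemma toF_add {Ω : Type} {F : Set (Finset Ω)} (x y : C00 F) : toF (x + y) = toF x + toF y := rfl

lemma sum_apply' {Ω : Type} (F : Set (Finset Ω)) (A : Finset ℕ) (z : ℕ → C00 F) (h : Ω) :
    toF (∑ k ∈ A, z k) h = ∑ k ∈ A, toF (z k) h :=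
  Finsupp.finsetSum_apply A z h

theorem not_containsC0 {H : Set (List Bool)} (hH : IsFinUnionAntichains H) :
    ¬ ContainsC0 (XF (restr Fam H)) := by
  classical
  obtain ⟨m, A, hA, hH⟩ := hH
  rintro ⟨T, c, hc, hT⟩
  have happ : ∀ k : ℕ, ∃ z : C00 (restr Fam H), ‖T (unit k) - z‖ < c / 8 * (1 / 2) ^ k := by
    intro k
    obtain ⟨_, hz, ⟨z, rfl⟩⟩ := Metric.dense_iff.1
      (UniformSpace.Completion.denseRange_coe (α := C00 (restr Fam H))) (T (unit k))
      (c / 8 * (1 / 2) ^ k) (by positivity)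
    refine ⟨z, ?_⟩
    rw [Metric.mem_ball, dist_comm, dist_eq_norm] at hz
    exact hz
  choose z hz using happ
  have hgeom : ∀ B : Finset ℕ, ∑ k ∈ B, (1 / 2 : ℝ) ^ k ≤ 2 := by
    intro B
    have := (summable_geometric_of_lt_one (r := (1 / 2 : ℝ)) (by norm_num)
      (by norm_num)).sum_le_tsum B fun k _ => by positivity
    rw [tsum_geometric_of_lt_one (by norm_num) (by norm_num)] at this
    norm_num at this ⊢
    exact this
  set M := ‖T‖ + c / 4 with hM
  have hzn : ∀ k, c / 2 ≤ ‖z k‖ := by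
    intro k
    have h1 := hT (unit k)
    rw [norm_unit, mul_one] at h1
    have h2 := norm_le_norm_sub_add (T (unit k)) (z k : XF (restr Fam H))
    rw [UniformSpace.Completion.norm_coe] at h2
    have h3 : c / 8 * (1 / 2 : ℝ) ^ k ≤ c / 8 :=
      mul_le_of_le_one_right (by positivity) (pow_le_one₀ (by norm_num) (by norm_num))
    have h4 := hz k
    linarith
  have hsum : ∀ B : Finset ℕ, ‖∑ k ∈ B, z k‖ ≤ M := by
    intro B
    rw [← UniformSpace.Completion.norm_coe, coe_sum]
    have h1 : ∑ k ∈ B, (z k : XF (restr Fam H)) = T (∑ k ∈ B, unit k) -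
        ∑ k ∈ B, (T (unit k) - z k) := by
      rw [Finset.sum_sub_distrib, map_sum, sub_sub_cancel]
    rw [h1]
    refine (norm_sub_le _ _).trans (add_le_add ?_ ?_)
    · refine (T.le_opNorm _).trans ?_
      exact mul_le_of_le_one_right (norm_nonneg _) (norm_sum_unit_le B)
    · refine (norm_sum_le _ _).trans ?_
      calc ∑ k ∈ B, ‖T (unit k) - z k‖ ≤ ∑ k ∈ B, c / 8 * (1 / 2) ^ k :=
            Finset.sum_le_sum fun k _ => (hz k).le
        _ = c / 8 * ∑ k ∈ B, (1 / 2) ^ k := by rw [Finset.mul_sum]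
        _ ≤ c / 8 * 2 := mul_le_mul_of_nonneg_left (hgeom B) (by positivity)
        _ = c / 4 := by ring
  -- the coordinates tend to zero
  have hcoord : ∀ h : H, Tendsto (fun k => |(toF (z k)) h|) atTop (𝓝 0) := by
    intro h
    have h1 : ∀ B : Finset ℕ, |∑ k ∈ B, (toF (z k)) h| ≤ M := by
      intro B
      rw [← sum_apply']
      exact (abs_le_normF _ h).trans (hsum B)
    have h2 : Summable fun k => |(toF (z k)) h| :=
      summable_of_sum_le (fun _ => abs_nonneg _) (abs_le_two_mul _ M h1)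
    exact h2.tendsto_atTop_zero
  have hgrow : ∀ j : ℕ, ∃ B : Finset ℕ, j * (c / 4) ≤ L (toF (∑ k ∈ B, z k)) := by
    intro j
    induction j with
    | zero =>
      refine ⟨∅, ?_⟩
      rw [Nat.cast_zero, zero_mul]
      exact Finset.sum_nonneg fun _ _ => abs_nonneg _
    | succ j ih =>
      obtain ⟨B, hB⟩ := ih
      set w : H →₀ ℝ := toF (∑ k ∈ B, z k) with hw
      have h1 : Tendsto (fun k => ∑ h ∈ w.support, |(toF (z k)) h|) atTop
          (𝓝 (∑ h ∈ w.support, (0 : ℝ))) := tendsto_finsetSum _ fun h _ => hcoord h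
      rw [Finset.sum_const_zero] at h1
      obtain ⟨N, hN⟩ := B.exists_nat_subset_range
      obtain ⟨k, hk1, hk2⟩ := ((h1.eventually_lt_const (show (0 : ℝ) < c / 8 by positivity)).and
        (eventually_ge_atTop N)).exists
      have hkB : k ∉ B := fun h => absurd (Finset.mem_range.1 (hN h)) (not_lt.2 hk2)
      refine ⟨insert k B, ?_⟩
      rw [Finset.sum_insert hkB, add_comm (z k), toF_add]
      have h2 := L_add w (toF (z k))
      have h3 : c / 2 ≤ L (toF (z k)) := by
        refine (hzn k).trans ?_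
        exact normF_le (Finset.sum_nonneg fun _ _ => abs_nonneg _) fun B _ =>
          sum_le_sum_support _ B
      push_cast
      linarith
  obtain ⟨j, hj⟩ := exists_nat_gt (m * M / (c / 4))
  obtain ⟨B, hB⟩ := hgrow j
  have h1 := l1_le hA hH (toF (∑ k ∈ B, z k))
  have h2 : (m : ℝ) * normF (restr Fam H) (toF (∑ k ∈ B, z k)) ≤ m * M :=
    mul_le_mul_of_nonneg_left (hsum B) (Nat.cast_nonneg m)
  rw [div_lt_iff₀ (by positivity)] at hj
  have h3 : j * (c / 4) ≤ m * M := hB.trans (h1.trans h2)
  linarith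

/-- elements of a chain have different lengths -/
lemma chain_length {D : Set (List Bool)} (hD : IsChain D) {s t : List Bool} (hs : s ∈ D)
    (ht : t ∈ D) (h : s.length = t.length) : s = t := by
  rcases hD s hs t ht with h1 | h1
  · exact ext_eq h1 h.ge
  · exact (ext_eq h1 h.le).symm

lemma chain_mono {D D' : Set (List Bool)} (hD : IsChain D) (h : D' ⊆ D) : IsChain D' :=
  fun s hs t ht => hD s (h hs) t (h ht)

/-- Sets which are not a union of finitely many antichains contain large chains at high levels. -/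
lemma exists_chain {H : Set (List Bool)} (hH : ¬ IsFinUnionAntichains H) (n : ℕ) :
    ∃ C : Finset (List Bool), (∀ s ∈ C, s ∈ H) ∧ IsChain (C : Set (List Bool)) ∧ C.card = n ∧
      ∀ s ∈ C, n ≤ s.length := by
  classical
  by_contra hcon
  apply hH
  -- chains in `H` have less than `2 n + 1` elements
  have hsmall : ∀ D : Finset (List Bool), (∀ s ∈ D, s ∈ H) → IsChain (D : Set (List Bool)) →
      D.card < 2 * n + 1 := by
    intro D hDH hD
    by_contra hlt
    apply hcon
    have h1 : (D.filter (fun s => ¬ n ≤ s.length)).card ≤ n := by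
      have h2 : (D.filter (fun s => ¬ n ≤ s.length)).card ≤ (Finset.range n).card := by
        refine Finset.card_le_card_of_injOn List.length ?_ ?_
        · intro s hs
          rw [Finset.mem_coe, Finset.mem_filter] at hs
          exact Finset.mem_coe.2 (Finset.mem_range.2 (not_le.1 hs.2))
        · intro s hs t ht hst
          rw [Finset.mem_coe, Finset.mem_filter] at hs ht
          exact chain_length hD hs.1 ht.1 hst
      rwa [Finset.card_range] at h2
    have h3 := Finset.card_filter_add_card_filter_not (s := D) (fun s => n ≤ s.length)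
    obtain ⟨C, hC, hcard⟩ := Finset.exists_subset_card_eq
      (show n ≤ (D.filter (fun s => n ≤ s.length)).card by omega)
    refine ⟨C, fun s hs => hDH s (Finset.mem_filter.1 (hC hs)).1, ?_, hcard,
      fun s hs => (Finset.mem_filter.1 (hC hs)).2⟩
    exact chain_mono hD fun s hs => (Finset.mem_filter.1 (hC hs)).1
  -- predecessors
  set pre : List Bool → Finset (List Bool) := fun s =>
    ((Finset.range (s.length + 1)).image fun i => s.take i).filter (· ∈ H) with hpre
  have hmem : ∀ s t, t ∈ pre s ↔ Ext t s ∧ t ∈ H := by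
    intro s t
    simp only [hpre, Finset.mem_filter, Finset.mem_image, Finset.mem_range]
    constructor
    · rintro ⟨⟨i, -, rfl⟩, h2⟩
      exact ⟨⟨s.drop i, (List.take_append_drop i s).symm⟩, h2⟩
    · rintro ⟨⟨u, hu⟩, h2⟩
      refine ⟨⟨t.length, ?_, ?_⟩, h2⟩
      · rw [hu, List.length_append]; omega
      · rw [hu, List.take_left']
        rfl
  have hcard : ∀ s, (pre s).card < 2 * n + 1 := by
    intro s
    refine hsmall _ (fun t ht => ((hmem s t).1 ht).2) ?_
    intro t ht r hr
    exact ext_comparable ((hmem s t).1 ht).1 ((hmem s r).1 hr).1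
  refine ⟨2 * n + 1, fun i => {s ∈ H | (pre s).card = i}, ?_, ?_⟩
  · intro i s hs t ht hst
    by_contra hne
    have h1 : pre s ⊂ pre t := by
      rw [Finset.ssubset_iff_of_subset]
      · refine ⟨t, (hmem t t).2 ⟨ext_refl t, ht.1⟩, fun h => hne ?_⟩
        exact ext_eq hst (length_le ((hmem s t).1 h).1)
      · intro r hr
        exact (hmem t r).2 ⟨ext_trans ((hmem s r).1 hr).1 hst, ((hmem s r).1 hr).2⟩
    have h2 := Finset.card_lt_card h1
    have h3 : (pre s).card = i := hs.2
    have h4 : (pre t).card = i := ht.2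
    omega
  · ext s
    constructor
    · intro hs
      exact mem_iUnion.2 ⟨⟨(pre s).card, hcard s⟩, hs, rfl⟩
    · intro hs
      obtain ⟨i, hi⟩ := mem_iUnion.1 hs
      exact hi.1

section vectors

variable (C : ℕ → Finset (List Bool))

/-- bounds for the levels -/
def Lv : ℕ → ℕ
  | 0 => 1
  | k + 1 => max (Lv k) ((C (2 ^ k * Lv k)).sup fun s => s.length + 1)

/-- the sizes -/
def sz (k : ℕ) : ℕ := 2 ^ k * Lv C k

/-- the chains -/
def ch (k : ℕ) : Finset (List Bool) := C (sz C k)

lemma one_le_Lv (k : ℕ) : 1 ≤ Lv C k := by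
  induction k with
  | zero => exact le_rfl
  | succ k ih => exact ih.trans (le_max_left _ _)

lemma Lv_mono : Monotone (Lv C) := monotone_nat_of_le_succ fun _ => le_max_left _ _

lemma Lv_le_sz (k : ℕ) : Lv C k ≤ sz C k := Nat.le_mul_of_pos_left _ (by positivity)

lemma two_pow_le_sz (k : ℕ) : 2 ^ k ≤ sz C k := Nat.le_mul_of_pos_right _ (one_le_Lv C k)

lemma length_lt_Lv {k l : ℕ} (h : k < l) {s : List Bool} (hs : s ∈ ch C k) :
    s.length + 1 ≤ Lv C l := by
  refine le_trans ?_ (Lv_mono C (Nat.succ_le_of_lt h))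
  exact le_trans (Finset.le_sup (f := fun s : List Bool => s.length + 1) hs) (le_max_right _ _)

variable {C}

lemma ch_disj (hC : ∀ n, ∀ s ∈ C n, n ≤ s.length) {k l : ℕ} (h : k ≠ l) {s : List Bool}
    (hs : s ∈ ch C k) : s ∉ ch C l := by
  intro hs'
  have h1 : Lv C k ≤ s.length := (Lv_le_sz C k).trans (hC _ s hs)
  have h2 : Lv C l ≤ s.length := (Lv_le_sz C l).trans (hC _ s hs')
  rcases lt_or_gt_of_ne h with hlt | hlt
  · have := length_lt_Lv C hlt hs
    omega
  · have := length_lt_Lv C hlt hs'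
    omega

variable (C)

open Classical in
/-- the vectors `(1/n_k) 1_{D_k}` -/
noncomputable def vec (H : Set (List Bool)) (k : ℕ) : H →₀ ℝ :=
  Finsupp.onFinset ((ch C k).subtype (· ∈ H))
    (fun s => if (s : List Bool) ∈ ch C k then 1 / (sz C k : ℝ) else 0) (by
      intro s hs
      rw [Finset.mem_subtype]
      by_contra hcon
      exact hs (if_neg hcon))

open Classical in
lemma vec_apply (H : Set (List Bool)) (k : ℕ) (s : H) :
    vec C H k s = if (s : List Bool) ∈ ch C k then 1 / (sz C k : ℝ) else 0 := rfl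

lemma sz_pos (k : ℕ) : (0 : ℝ) < sz C k := by
  have := (one_le_Lv C k).trans (Lv_le_sz C k)
  exact_mod_cast this

lemma comb_apply (H : Set (List Bool)) (A : Finset ℕ) (a : ℕ → ℝ) (s : H) :
    (∑ k ∈ A, a k • vec C H k) s = ∑ k ∈ A, a k * vec C H k s := by
  rw [Finsupp.finsetSum_apply]
  rfl

open Classical in
lemma upper (H : Set (List Bool)) (hcard : ∀ n, (C n).card = n)
    (hch : ∀ n, IsChain (C n : Set (List Bool))) (A : Finset ℕ) (a : ℕ → ℝ) (t : ℝ)
    (ht : 0 ≤ t) (ha : ∀ k ∈ A, |a k| ≤ t) :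
    normF (restr Fam H) (∑ k ∈ A, a k • vec C H k) ≤ 3 * t := by
  have hgeom : ∑ k ∈ A, (1 / 2 : ℝ) ^ k ≤ 2 := by
    have := (summable_geometric_of_lt_one (r := (1 / 2 : ℝ)) (by norm_num)
      (by norm_num)).sum_le_tsum A fun k _ => by positivity
    rw [tsum_geometric_of_lt_one (by norm_num) (by norm_num)] at this
    norm_num at this ⊢
    exact this
  refine normF_le (by positivity) fun B hB => ?_
  obtain ⟨A', hA', hBA⟩ := hB
  set N : ℕ → ℕ := fun k => (B.filter fun s : H => (s : List Bool) ∈ ch C k).card with hN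
  have h1 : ∑ s ∈ B, |(∑ k ∈ A, a k • vec C H k) s| ≤ t * ∑ k ∈ A, (N k : ℝ) / sz C k := by
    calc ∑ s ∈ B, |(∑ k ∈ A, a k • vec C H k) s| ≤ ∑ s ∈ B, ∑ k ∈ A, t * vec C H k s := by
          refine Finset.sum_le_sum fun s _ => ?_
          rw [comb_apply]
          refine (Finset.abs_sum_le_sum_abs _ _).trans (Finset.sum_le_sum fun k hk => ?_)
          have h0 : 0 ≤ vec C H k s := by
            rw [vec_apply]; split_ifs <;> positivity
          rw [abs_mul, abs_of_nonneg h0]
          exact mul_le_mul_of_nonneg_right (ha k hk) h0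
      _ = ∑ k ∈ A, ∑ s ∈ B, t * vec C H k s := Finset.sum_comm
      _ = t * ∑ k ∈ A, (N k : ℝ) / sz C k := by
          rw [Finset.mul_sum]
          refine Finset.sum_congr rfl fun k _ => ?_
          rw [← Finset.mul_sum]
          congr 1
          simp only [vec_apply]
          rw [Finset.sum_ite, Finset.sum_const_zero, add_zero, Finset.sum_const, nsmul_eq_mul]
          simp only [hN]
          ring
  refine h1.trans ?_
  rw [mul_comm 3 t]
  refine mul_le_mul_of_nonneg_left ?_ ht
  have hterm : ∀ k, (1 : ℝ) / sz C k ≤ (1 / 2) ^ k := by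
    intro k
    rw [one_div_pow]
    refine one_div_le_one_div_of_le (by positivity) ?_
    exact_mod_cast two_pow_le_sz C k
  have hNle : ∀ k, N k ≤ sz C k := by
    intro k
    calc N k = ((B.filter fun s : H => (s : List Bool) ∈ ch C k).map
          (Function.Embedding.subtype _)).card := (Finset.card_map _).symm
      _ ≤ (ch C k).card := by
          refine Finset.card_le_card fun s hs => ?_
          rw [Finset.mem_map] at hs
          obtain ⟨s', hs', rfl⟩ := hs
          exact (Finset.mem_filter.1 hs').2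
      _ = sz C k := hcard _
  rcases hA' with hanti | ⟨hchain, hlev⟩
  · -- antichain
    have hone : ∀ k, N k ≤ 1 := by
      intro k
      refine Finset.card_le_one.2 fun x hx y hy => ?_
      rw [Finset.mem_filter] at hx hy
      apply Subtype.ext
      rcases hch _ _ hx.2 _ hy.2 with h | h
      · exact hanti _ ((hBA x).1 hx.1) _ ((hBA y).1 hy.1) h
      · exact (hanti _ ((hBA y).1 hy.1) _ ((hBA x).1 hx.1) h).symm
    calc ∑ k ∈ A, (N k : ℝ) / sz C k ≤ ∑ k ∈ A, (1 / 2 : ℝ) ^ k := by
          refine Finset.sum_le_sum fun k _ => le_trans ?_ (hterm k)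
          refine div_le_div_of_nonneg_right ?_ (sz_pos C k).le
          exact_mod_cast hone k
      _ ≤ 3 := by linarith
  · -- chain
    by_cases hK : ∃ k ∈ A, 0 < N k
    · obtain ⟨k0, ⟨hk0A, hk0⟩, hmin⟩ : ∃ k0, (k0 ∈ A ∧ 0 < N k0) ∧
          ∀ l, l ∈ A ∧ 0 < N l → k0 ≤ l := by
        refine ⟨Nat.find hK, Nat.find_spec hK, fun l hl => Nat.find_min' hK hl⟩
      obtain ⟨s, hs⟩ := Finset.card_pos.1 hk0
      rw [Finset.mem_filter] at hs
      have hBle : B.card ≤ s.1.length + 1 := by
        calc B.card = (B.map (Function.Embedding.subtype _)).card := (Finset.card_map _).symm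
          _ ≤ A'.card := by
              refine Finset.card_le_card fun r hr => ?_
              rw [Finset.mem_map] at hr
              obtain ⟨r', hr', rfl⟩ := hr
              exact (hBA r').1 hr'
          _ ≤ s.1.length + 1 := hlev _ ((hBA s).1 hs.1)
      have hb : ∀ k ∈ A, (N k : ℝ) / sz C k ≤ (if k = k0 then 1 else 0) + (1 / 2) ^ k := by
        intro k hk
        rcases lt_trichotomy k k0 with hlt | heq | hgt
        · have h0 : N k = 0 := by
            by_contra hne
            exact absurd (hmin k ⟨hk, Nat.pos_of_ne_zero hne⟩) (not_le.2 hlt)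
          rw [h0, Nat.cast_zero, zero_div]
          positivity
        · rw [if_pos heq]
          have h2 : (N k : ℝ) / sz C k ≤ 1 := by
            rw [div_le_one (sz_pos C k)]
            exact_mod_cast hNle k
          have h3 : (0 : ℝ) ≤ (1 / 2) ^ k := by positivity
          linarith
        · have h2 : N k ≤ Lv C k :=
            ((Finset.card_filter_le _ _).trans hBle).trans (length_lt_Lv C hgt hs.2)
          rw [if_neg hgt.ne', zero_add, div_le_iff₀ (sz_pos C k)]
          have h3 : ((sz C k : ℕ) : ℝ) = 2 ^ k * (Lv C k : ℝ) := by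
            unfold sz
            push_cast
            ring
          rw [h3, ← mul_assoc, ← mul_pow]
          norm_num
          exact_mod_cast h2
      calc ∑ k ∈ A, (N k : ℝ) / sz C k ≤ ∑ k ∈ A, ((if k = k0 then 1 else 0) + (1 / 2 : ℝ) ^ k) :=
            Finset.sum_le_sum hb
        _ = 1 + ∑ k ∈ A, (1 / 2 : ℝ) ^ k := by
            rw [Finset.sum_add_distrib, Finset.sum_ite_eq', if_pos hk0A]
        _ ≤ 3 := by linarith
    · push Not at hK
      rw [Finset.sum_eq_zero]
      · norm_num
      · intro k hk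
        have : N k = 0 := by have := hK k hk; omega
        rw [this, Nat.cast_zero, zero_div]

lemma lower (H : Set (List Bool)) (hcard : ∀ n, (C n).card = n)
    (hch : ∀ n, IsChain (C n : Set (List Bool))) (hCH : ∀ n, ∀ s ∈ C n, s ∈ H)
    (hlen : ∀ n, ∀ s ∈ C n, n ≤ s.length) (A : Finset ℕ) (a : ℕ → ℝ) (j : ℕ) (hj : j ∈ A) :
    |a j| ≤ normF (restr Fam H) (∑ k ∈ A, a k • vec C H k) := by
  classical
  have hB : (ch C j).subtype (· ∈ H) ∈ restr Fam H := by
    refine ⟨ch C j, Or.inr ⟨hch _, fun s hs => ?_⟩, fun k => Finset.mem_subtype⟩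
    rw [ch, hcard]
    exact (hlen _ s hs).trans (Nat.le_succ _)
  refine le_trans (le_of_eq ?_) (sum_le_normF hB _)
  have h1 : ∀ s ∈ (ch C j).subtype (· ∈ H), |(∑ k ∈ A, a k • vec C H k) s| =
      |a j| * (1 / sz C j) := by
    intro s hs
    rw [Finset.mem_subtype] at hs
    rw [comb_apply, Finset.sum_eq_single j]
    · rw [vec_apply, if_pos hs, abs_mul, abs_of_nonneg (a := 1 / (sz C j : ℝ)) (by positivity)]
    · intro k _ hkj
      rw [vec_apply, if_neg (ch_disj hlen hkj.symm hs), mul_zero]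
    · intro h; exact absurd hj h
  have h2 : ((ch C j).subtype (· ∈ H)).card = sz C j := by
    rw [Finset.card_subtype, Finset.filter_true_of_mem]
    · exact hcard _
    · exact fun s hs => hCH _ s hs
  rw [Finset.sum_congr rfl h1, Finset.sum_const, h2, nsmul_eq_mul]
  have := sz_pos C j
  field_simp

/-- the vectors in the normed space -/
noncomputable def vecC (H : Set (List Bool)) (k : ℕ) : C00 (restr Fam H) := vec C H k

lemma norm_comb (H : Set (List Bool)) (A : Finset ℕ) (a : ℕ → ℝ) :
    ‖∑ k ∈ A, a k • (vecC C H k : XF (restr Fam H))‖ =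
      normF (restr Fam H) (∑ k ∈ A, a k • vec C H k) := by
  have h1 : ∑ k ∈ A, a k • (vecC C H k : XF (restr Fam H)) =
      ((∑ k ∈ A, a k • vecC C H k : C00 (restr Fam H)) : XF (restr Fam H)) := by
    rw [coe_sum]
    exact Finset.sum_congr rfl fun k _ => (UniformSpace.Completion.coe_smul _ _).symm
  rw [h1, UniformSpace.Completion.norm_coe]
  rfl

end vectors

/-- A family `F` of finite sets which covers the binary tree and such that the sets `H` for which
`X_{F↾H}` does not contain `c_0` are the unions of finitely many antichains. -/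
theorem result : ∃ F : Set (Finset (List Bool)), (∀ s, ∃ A ∈ F, s ∈ A) ∧
    ∀ H : Set (List Bool), ¬ ContainsC0 (XF (restr F H)) ↔ IsFinUnionAntichains H := by
  refine ⟨Fam, fun s => ⟨{s}, singleton_mem s, Finset.mem_singleton_self s⟩, fun H => ?_⟩
  constructor
  · intro hnot
    by_contra hH
    apply hnot
    choose C hCH hch hcard hlen using exists_chain hH
    refine containsC0_of (fun k => (vecC C H k : XF (restr Fam H))) 3 1
      (by norm_num) one_pos ?_ ?_
    · intro A a t ht ha
      rw [norm_comb]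
      exact upper C H hcard hch A a t ht ha
    · intro A a j hj
      rw [norm_comb, one_mul]
      exact lower C H hcard hch hCH hlen A a j hj
  · exact not_containsC0

end Pool.Agent.Results.MP_de5a3f_an.FamilyOnTree
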